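import Mathlib
import Pool.Agent.H826R2.Wein.HFlow
import Pool.Agent.H826R2.Wein.Bridge

/-! Closed Reeb orbits when the Reeb field is tangent to a fibration by closed surfaces: statements
of the parts. -/

open scoped Topology ContDiff Manifold
open Set Filter Bundle Pool.Agent.Helper186 Pool.Agent.H826R2

noncomputable section

namespace Pool.Agent.N287.WF

universe u v w

/-! ### Part A: lattices in the plane over a compact space -/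

/-- the determinant of two vectors of the plane -/
def det2 (p q : ℝ × ℝ) : ℝ := p.1 * q.2 - p.2 * q.1

/-- `γ` is a continuous selection of the family of groups `Λ` near `x₀`. -/
def Sel {M : Type v} [TopologicalSpace M] (Λ : M → AddSubgroup (ℝ × ℝ)) (γ : M → ℝ × ℝ) (x₀ : M) :
    Prop :=
  ∀ᶠ x in 𝓝 x₀, ContinuousAt γ x ∧ γ x ∈ Λ x

/-- a family of groups -/
structure LB {M : Type v} [TopologicalSpace M] (Λ : M → AddSubgroup (ℝ × ℝ)) : Prop where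
  closed : IsClosed {p : M × (ℝ × ℝ) | p.2 ∈ Λ p.1}
  disc : ∃ ε > 0, ∀ x, ∀ γ ∈ Λ x, ‖γ‖ < ε → γ = 0
  sel : ∀ x₀, ∀ γ₀ ∈ Λ x₀, ∃ γ : M → ℝ × ℝ, γ x₀ = γ₀ ∧ Sel Λ γ x₀
  per : ∀ x (a : ℝ), ((a, 0) : ℝ × ℝ) ∈ Λ x → a = 0
  small : ∀ x, ∀ δ > 0, ∃ γ ∈ Λ x, γ.2 ≠ 0 ∧ |γ.2| < δ

/-- A1: the groups are lattices. -/
def BasisStm : Prop :=
  ∀ Λ : AddSubgroup (ℝ × ℝ), (∃ ε > 0, ∀ γ ∈ Λ, ‖γ‖ < ε → γ = 0) →
    (∀ a : ℝ, ((a, 0) : ℝ × ℝ) ∈ Λ → a = 0) →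
    (∀ δ > 0, ∃ γ ∈ Λ, γ.2 ≠ 0 ∧ |γ.2| < δ) →
    ∃ g₁ ∈ Λ, ∃ g₂ ∈ Λ, det2 g₁ g₂ ≠ 0 ∧ ∀ γ ∈ Λ, ∃ m n : ℤ, γ = m • g₁ + n • g₂

/-- A2: continuous selections which are a basis at one point are a basis nearby. -/
def LocalBasisStm : Prop :=
  ∀ (M : Type v) [TopologicalSpace M] (Λ : M → AddSubgroup (ℝ × ℝ)),
    IsClosed {p : M × (ℝ × ℝ) | p.2 ∈ Λ p.1} →
    (∃ ε > 0, ∀ x, ∀ γ ∈ Λ x, ‖γ‖ < ε → γ = 0) →
    ∀ (x₀ : M) (g₁ g₂ : M → ℝ × ℝ), Sel Λ g₁ x₀ → Sel Λ g₂ x₀ → det2 (g₁ x₀) (g₂ x₀) ≠ 0 →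
      (∀ γ ∈ Λ x₀, ∃ m n : ℤ, γ = m • g₁ x₀ + n • g₂ x₀) →
      ∀ᶠ x in 𝓝 x₀, det2 (g₁ x) (g₂ x) ≠ 0 ∧ ∀ γ ∈ Λ x, ∃ m n : ℤ, γ = m • g₁ x + n • g₂ x

/-- A3: there is no family of lattices for which (1) if the second coordinates of two selections
are proportional then the same combination of their first coordinates is locally constant, and (2)
the absolute value of the first coordinate of a selection has no local minimum, unless it is zero. -/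
def AbsStm : Prop :=
  ∀ (M : Type v) [TopologicalSpace M] [CompactSpace M] [T2Space M] [LocallyConnectedSpace M]
    [Nonempty M] (Λ : M → AddSubgroup (ℝ × ℝ)), LB Λ →
    (∀ (x₀ : M) (γ γ' : M → ℝ × ℝ) (ρ : ℝ), Sel Λ γ x₀ → Sel Λ γ' x₀ →
      (∀ᶠ x in 𝓝 x₀, (γ x).2 = ρ * (γ' x).2) →
      ∀ᶠ x in 𝓝 x₀, (γ x).1 - ρ * (γ' x).1 = (γ x₀).1 - ρ * (γ' x₀).1) →
    (∀ (x₀ : M) (γ : M → ℝ × ℝ), Sel Λ γ x₀ → (γ x₀).2 ≠ 0 → (γ x₀).1 ≠ 0 →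
      ¬ ∀ᶠ x in 𝓝 x₀, |(γ x₀).1| ≤ |(γ x).1|) →
    False

/-! ### Part M: the manifold -/

section

variable {E : Type u} [NormedAddCommGroup E] [NormedSpace ℝ E] [FiniteDimensional ℝ E]
  {M : Type v} [TopologicalSpace M] [ChartedSpace E M] [IsManifold 𝓘(ℝ, E) ∞ M]
  {W : Type w} [NormedAddCommGroup W] [InnerProductSpace ℝ W] [FiniteDimensional ℝ W]

/-- derivative of a map with values in `W` -/
def DW (f : M → W) (x : M) : TangentSpace 𝓘(ℝ, E) x →L[ℝ] W := mfderiv 𝓘(ℝ, E) 𝓘(ℝ, W) f x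

/-- The kernel of the derivative of `f` is spanned by the Reeb field `R` and the field `Z`. -/
structure Fib (β : (x : M) → TangentSpace 𝓘(ℝ, E) x →L[ℝ] ℝ)
    (R : (x : M) → TangentSpace 𝓘(ℝ, E) x) (f : M → W) (Z : (x : M) → TangentSpace 𝓘(ℝ, E) x) :
    Prop where
  cd : Wein.CD β R
  smoothf : ContMDiff 𝓘(ℝ, E) 𝓘(ℝ, W) ∞ f
  smoothZ : ContMDiff 𝓘(ℝ, E) 𝓘(ℝ, E).tangent ∞
    (fun x => (⟨x, Z x⟩ : TangentBundle 𝓘(ℝ, E) M))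
  ker : ∀ (x : M) (u : TangentSpace 𝓘(ℝ, E) x),
    DW f x u = 0 ↔ ∃ p q : ℝ, u = p • R x + q • Z x
  indep : ∀ (x : M) (p q : ℝ), p • R x + q • Z x = 0 → p = 0 ∧ q = 0

/-- The normalised field `Y`: it spans, together with `R`, the kernel of the derivative of `f`, it
lies in the kernel of `β`, and `dβ(Y, ·)` is the scalar product of the derivative of `f` with a unit
vector `a` (in the range of the derivative of `f`). -/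
structure Nrm (β : (x : M) → TangentSpace 𝓘(ℝ, E) x →L[ℝ] ℝ)
    (R : (x : M) → TangentSpace 𝓘(ℝ, E) x) (f : M → W) (Y : (x : M) → TangentSpace 𝓘(ℝ, E) x)
    (a : M → W) : Prop where
  cd : Wein.CD β R
  smoothf : ContMDiff 𝓘(ℝ, E) 𝓘(ℝ, W) ∞ f
  smoothY : ContMDiff 𝓘(ℝ, E) 𝓘(ℝ, E).tangent ∞
    (fun x => (⟨x, Y x⟩ : TangentBundle 𝓘(ℝ, E) M))
  ker : ∀ (x : M) (u : TangentSpace 𝓘(ℝ, E) x),
    DW f x u = 0 ↔ ∃ p q : ℝ, u = p • R x + q • Y x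
  kerβ : ∀ x, β x (Y x) = 0
  ne : ∀ x, Y x ≠ 0
  conta : Continuous a
  unit : ∀ x, ‖a x‖ = 1
  mem : ∀ x, ∃ u : TangentSpace 𝓘(ℝ, E) x, DW f x u = a x
  theta : ∀ (x : M) (v : TangentSpace 𝓘(ℝ, E) x),
    extDer 𝓘(ℝ, E) β x (Y x) v = inner ℝ (a x) (DW f x v)

/-- the commuting flows of `R` and `Y` -/
structure Fl2 (R Y : (x : M) → TangentSpace 𝓘(ℝ, E) x) (φ ψ : M → ℝ → M) : Prop where
  φ0 : ∀ x, φ x 0 = x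
  φint : ∀ x, IsMIntegralCurve (I := 𝓘(ℝ, E)) (φ x) R
  ψ0 : ∀ x, ψ x 0 = x
  ψint : ∀ x, IsMIntegralCurve (I := 𝓘(ℝ, E)) (ψ x) Y
  comm : ∀ x s t, φ (ψ x s) t = ψ (φ x t) s

end

/-- the action of the plane -/
def act {M : Type v} (φ ψ : M → ℝ → M) (γ : ℝ × ℝ) (x : M) : M := φ (ψ x γ.2) γ.1

/-- M1a: the normalised field exists. -/
def NrmStm : Prop :=
  ∀ (E : Type u) [NormedAddCommGroup E] [NormedSpace ℝ E] [FiniteDimensional ℝ E]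
    (M : Type v) [TopologicalSpace M] [ChartedSpace E M] [IsManifold 𝓘(ℝ, E) ∞ M]
    [T2Space M] [CompactSpace M]
    (W : Type w) [NormedAddCommGroup W] [InnerProductSpace ℝ W] [FiniteDimensional ℝ W]
    (β : (x : M) → TangentSpace 𝓘(ℝ, E) x →L[ℝ] ℝ) (R : (x : M) → TangentSpace 𝓘(ℝ, E) x)
    (f : M → W) (Z : (x : M) → TangentSpace 𝓘(ℝ, E) x), Fib β R f Z →
    ∃ (Y : (x : M) → TangentSpace 𝓘(ℝ, E) x) (a : M → W), Nrm β R f Y a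

/-- M1b: the Reeb flow preserves the normalised field `Y` and the function `a`. -/
def InvStm : Prop :=
  ∀ (E : Type u) [NormedAddCommGroup E] [NormedSpace ℝ E] [FiniteDimensional ℝ E]
    (M : Type v) [TopologicalSpace M] [ChartedSpace E M] [IsManifold 𝓘(ℝ, E) ∞ M]
    [T2Space M]
    (W : Type w) [NormedAddCommGroup W] [InnerProductSpace ℝ W] [FiniteDimensional ℝ W]
    (β : (x : M) → TangentSpace 𝓘(ℝ, E) x →L[ℝ] ℝ) (R : (x : M) → TangentSpace 𝓘(ℝ, E) x)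
    (f : M → W) (Y : (x : M) → TangentSpace 𝓘(ℝ, E) x) (a : M → W), Nrm β R f Y a →
    ∀ φ : M → ℝ → M, (∀ x, φ x 0 = x) → (∀ x, IsMIntegralCurve (I := 𝓘(ℝ, E)) (φ x) R) →
      ∀ (x : M) (t : ℝ), (mfderiv 𝓘(ℝ, E) 𝓘(ℝ, E) (fun y => φ y t) x (Y x) : E) = Y (φ x t) ∧
        a (φ x t) = a x

/-- M2: the commuting flows exist. -/
def FlowStm : Prop :=
  ∀ (E : Type u) [NormedAddCommGroup E] [NormedSpace ℝ E] [FiniteDimensional ℝ E]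
    (M : Type v) [TopologicalSpace M] [ChartedSpace E M] [IsManifold 𝓘(ℝ, E) ∞ M]
    [T2Space M] [CompactSpace M]
    (W : Type w) [NormedAddCommGroup W] [InnerProductSpace ℝ W] [FiniteDimensional ℝ W]
    (β : (x : M) → TangentSpace 𝓘(ℝ, E) x →L[ℝ] ℝ) (R : (x : M) → TangentSpace 𝓘(ℝ, E) x)
    (f : M → W) (Y : (x : M) → TangentSpace 𝓘(ℝ, E) x) (a : M → W), Nrm β R f Y a →
    (∀ φ : M → ℝ → M, (∀ x, φ x 0 = x) → (∀ x, IsMIntegralCurve (I := 𝓘(ℝ, E)) (φ x) R) →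
      ∀ (x : M) (t : ℝ), (mfderiv 𝓘(ℝ, E) 𝓘(ℝ, E) (fun y => φ y t) x (Y x) : E) = Y (φ x t)) →
    ∃ φ ψ : M → ℝ → M, Fl2 R Y φ ψ

/-- M2': elementary properties of the action -/
def ActStm : Prop :=
  ∀ (E : Type u) [NormedAddCommGroup E] [NormedSpace ℝ E] [FiniteDimensional ℝ E]
    (M : Type v) [TopologicalSpace M] [ChartedSpace E M] [IsManifold 𝓘(ℝ, E) ∞ M]
    [T2Space M]
    (W : Type w) [NormedAddCommGroup W] [InnerProductSpace ℝ W] [FiniteDimensional ℝ W]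
    (β : (x : M) → TangentSpace 𝓘(ℝ, E) x →L[ℝ] ℝ) (R : (x : M) → TangentSpace 𝓘(ℝ, E) x)
    (f : M → W) (Y : (x : M) → TangentSpace 𝓘(ℝ, E) x) (a : M → W), Nrm β R f Y a →
    ∀ φ ψ : M → ℝ → M, Fl2 R Y φ ψ →
      ContMDiff (𝓘(ℝ, ℝ × ℝ).prod 𝓘(ℝ, E)) 𝓘(ℝ, E) ∞
        (fun p : (ℝ × ℝ) × M => act φ ψ p.1 p.2) ∧
      (∀ x, act φ ψ 0 x = x) ∧
      (∀ γ γ' x, act φ ψ (γ + γ') x = act φ ψ γ (act φ ψ γ' x)) ∧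
      (∀ γ x, f (act φ ψ γ x) = f x)

/-- M3: near a point, the level sets of `f` are pieces of orbits; `τ` is a coordinate on them. -/
def LocStm : Prop :=
  ∀ (E : Type u) [NormedAddCommGroup E] [NormedSpace ℝ E] [FiniteDimensional ℝ E]
    (M : Type v) [TopologicalSpace M] [ChartedSpace E M] [IsManifold 𝓘(ℝ, E) ∞ M]
    [T2Space M]
    (W : Type w) [NormedAddCommGroup W] [InnerProductSpace ℝ W] [FiniteDimensional ℝ W]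
    (β : (x : M) → TangentSpace 𝓘(ℝ, E) x →L[ℝ] ℝ) (R : (x : M) → TangentSpace 𝓘(ℝ, E) x)
    (f : M → W) (Y : (x : M) → TangentSpace 𝓘(ℝ, E) x) (a : M → W), Nrm β R f Y a →
    ∀ φ ψ : M → ℝ → M, Fl2 R Y φ ψ →
      ContMDiff (𝓘(ℝ, ℝ × ℝ).prod 𝓘(ℝ, E)) 𝓘(ℝ, E) ∞
        (fun p : (ℝ × ℝ) × M => act φ ψ p.1 p.2) →
      (∀ x, act φ ψ 0 x = x) →
      (∀ γ γ' x, act φ ψ (γ + γ') x = act φ ψ γ (act φ ψ γ' x)) →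
      (∀ γ x, f (act φ ψ γ x) = f x) →
      ∀ x₀ : M, ∃ U : Set M, IsOpen U ∧ x₀ ∈ U ∧ ∃ τ : M → ℝ × ℝ,
        ContMDiffOn 𝓘(ℝ, E) 𝓘(ℝ, ℝ × ℝ) ∞ τ U ∧ τ x₀ = 0 ∧
        (∀ x ∈ U, ∀ x' ∈ U, f x = f x' → act φ ψ (τ x - τ x') x' = x) ∧
        ∃ ε > 0, ∀ᶠ x in 𝓝 x₀, ∀ s : ℝ × ℝ, ‖s‖ < ε → act φ ψ s x ∈ U ∧ τ (act φ ψ s x) = τ x + s

/-- the conclusion of `LocStm` -/
def LocProp {M : Type v} [TopologicalSpace M] (E : Type u) [NormedAddCommGroup E]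
    [NormedSpace ℝ E] [ChartedSpace E M] {W : Type w} (f : M → W) (φ ψ : M → ℝ → M) : Prop :=
  ∀ x₀ : M, ∃ U : Set M, IsOpen U ∧ x₀ ∈ U ∧ ∃ τ : M → ℝ × ℝ,
    ContMDiffOn 𝓘(ℝ, E) 𝓘(ℝ, ℝ × ℝ) ∞ τ U ∧ τ x₀ = 0 ∧
    (∀ x ∈ U, ∀ x' ∈ U, f x = f x' → act φ ψ (τ x - τ x') x' = x) ∧
    ∃ ε > 0, ∀ᶠ x in 𝓝 x₀, ∀ s : ℝ × ℝ, ‖s‖ < ε → act φ ψ s x ∈ U ∧ τ (act φ ψ s x) = τ x + s

/-- M4: smooth selections, and uniform discreteness of the stabilisers. -/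
def SelStm : Prop :=
  ∀ (E : Type u) [NormedAddCommGroup E] [NormedSpace ℝ E] [FiniteDimensional ℝ E]
    (M : Type v) [TopologicalSpace M] [ChartedSpace E M] [IsManifold 𝓘(ℝ, E) ∞ M]
    (W : Type w) (f : M → W) (φ ψ : M → ℝ → M),
      ContMDiff (𝓘(ℝ, ℝ × ℝ).prod 𝓘(ℝ, E)) 𝓘(ℝ, E) ∞
        (fun p : (ℝ × ℝ) × M => act φ ψ p.1 p.2) →
      (∀ x, act φ ψ 0 x = x) →
      (∀ γ γ' x, act φ ψ (γ + γ') x = act φ ψ γ (act φ ψ γ' x)) →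
      (∀ γ x, f (act φ ψ γ x) = f x) →
      LocProp E f φ ψ →
      (∀ (x₀ : M) (γ₀ : ℝ × ℝ), act φ ψ γ₀ x₀ = x₀ → ∃ γ : M → ℝ × ℝ, γ x₀ = γ₀ ∧
        ∀ᶠ x in 𝓝 x₀, ContMDiffAt 𝓘(ℝ, E) 𝓘(ℝ, ℝ × ℝ) ∞ γ x ∧ act φ ψ (γ x) x = x) ∧
      (CompactSpace M → ∃ ε > 0, ∀ (x : M) (γ : ℝ × ℝ), act φ ψ γ x = x → ‖γ‖ < ε → γ = 0)

/-- M5a: the effect of the action on the contact form. -/
def FormStm : Prop :=
  ∀ (E : Type u) [NormedAddCommGroup E] [NormedSpace ℝ E] [FiniteDimensional ℝ E]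
    (M : Type v) [TopologicalSpace M] [ChartedSpace E M] [IsManifold 𝓘(ℝ, E) ∞ M]
    [T2Space M]
    (W : Type w) [NormedAddCommGroup W] [InnerProductSpace ℝ W] [FiniteDimensional ℝ W]
    (β : (x : M) → TangentSpace 𝓘(ℝ, E) x →L[ℝ] ℝ) (R : (x : M) → TangentSpace 𝓘(ℝ, E) x)
    (f : M → W) (Y : (x : M) → TangentSpace 𝓘(ℝ, E) x) (a : M → W), Nrm β R f Y a →
    ∀ φ ψ : M → ℝ → M, Fl2 R Y φ ψ → (∀ x s, a (ψ x s) = a x) →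
      ∀ (γ : ℝ × ℝ) (x : M) (v : TangentSpace 𝓘(ℝ, E) x),
        β (act φ ψ γ x) (mfderiv 𝓘(ℝ, E) 𝓘(ℝ, E) (act φ ψ γ) x v) =
          β x v + γ.2 * inner ℝ (a x) (DW f x v)

/-- M5b: the derivative of the first coordinate of a selection. -/
def DerStm : Prop :=
  ∀ (E : Type u) [NormedAddCommGroup E] [NormedSpace ℝ E] [FiniteDimensional ℝ E]
    (M : Type v) [TopologicalSpace M] [ChartedSpace E M] [IsManifold 𝓘(ℝ, E) ∞ M]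
    [T2Space M]
    (W : Type w) [NormedAddCommGroup W] [InnerProductSpace ℝ W] [FiniteDimensional ℝ W]
    (β : (x : M) → TangentSpace 𝓘(ℝ, E) x →L[ℝ] ℝ) (R : (x : M) → TangentSpace 𝓘(ℝ, E) x)
    (f : M → W) (Y : (x : M) → TangentSpace 𝓘(ℝ, E) x) (a : M → W), Nrm β R f Y a →
    ∀ φ ψ : M → ℝ → M, Fl2 R Y φ ψ →
      ContMDiff (𝓘(ℝ, ℝ × ℝ).prod 𝓘(ℝ, E)) 𝓘(ℝ, E) ∞
        (fun p : (ℝ × ℝ) × M => act φ ψ p.1 p.2) →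
      (∀ (γ : ℝ × ℝ) (x : M) (v : TangentSpace 𝓘(ℝ, E) x),
        β (act φ ψ γ x) (mfderiv 𝓘(ℝ, E) 𝓘(ℝ, E) (act φ ψ γ) x v) =
          β x v + γ.2 * inner ℝ (a x) (DW f x v)) →
      ∀ (x₀ : M) (γ : M → ℝ × ℝ), ContMDiffAt 𝓘(ℝ, E) 𝓘(ℝ, ℝ × ℝ) ∞ γ x₀ →
        (∀ᶠ x in 𝓝 x₀, act φ ψ (γ x) x = x) → ∀ v : TangentSpace 𝓘(ℝ, E) x₀,
        (mfderiv 𝓘(ℝ, E) 𝓘(ℝ, ℝ) (fun x => (γ x).1) x₀ v : ℝ) =
          - (γ x₀).2 * inner ℝ (a x₀) (DW f x₀ v)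

/-- M6: if the first flow has no periodic orbit then the stabilisers contain elements with small
nonzero second coordinate, and continuous functions invariant under the first flow are invariant
under the second. -/
def SmallStm : Prop :=
  ∀ (E : Type u) [NormedAddCommGroup E] [NormedSpace ℝ E]
    (M : Type v) [TopologicalSpace M] [ChartedSpace E M] [T2Space M] [CompactSpace M]
    (W : Type w) [TopologicalSpace W] [T2Space W] (f : M → W) (φ ψ : M → ℝ → M),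
      Continuous f →
      Continuous (fun p : (ℝ × ℝ) × M => act φ ψ p.1 p.2) →
      (∀ x, act φ ψ 0 x = x) →
      (∀ γ γ' x, act φ ψ (γ + γ') x = act φ ψ γ (act φ ψ γ' x)) →
      (∀ γ x, f (act φ ψ γ x) = f x) →
      LocProp E f φ ψ →
      (∀ x (t : ℝ), act φ ψ (t, 0) x = x → t = 0) →
      (∀ x, ∀ δ > 0, ∃ γ : ℝ × ℝ, act φ ψ γ x = x ∧ γ.2 ≠ 0 ∧ |γ.2| < δ) ∧
      (∀ (V : Type w) [TopologicalSpace V] [T2Space V] (a : M → V), Continuous a →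
        (∀ x t, a (act φ ψ (t, 0) x) = a x) → ∀ γ x, a (act φ ψ γ x) = a x)

/-- M7a: the two properties of selections used in the abstract statement -/
def SelPropStm : Prop :=
  ∀ (E : Type u) [NormedAddCommGroup E] [NormedSpace ℝ E] [FiniteDimensional ℝ E]
    (M : Type v) [TopologicalSpace M] [ChartedSpace E M] [IsManifold 𝓘(ℝ, E) ∞ M]
    (θ : (x : M) → TangentSpace 𝓘(ℝ, E) x →L[ℝ] ℝ) (Λ : M → AddSubgroup (ℝ × ℝ)),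
      (∀ x, θ x ≠ 0) →
      (∃ ε > 0, ∀ x, ∀ γ ∈ Λ x, ‖γ‖ < ε → γ = 0) →
      (∀ x₀, ∀ γ₀ ∈ Λ x₀, ∃ γ : M → ℝ × ℝ, γ x₀ = γ₀ ∧ ∀ᶠ x in 𝓝 x₀,
        ContMDiffAt 𝓘(ℝ, E) 𝓘(ℝ, ℝ × ℝ) ∞ γ x ∧ γ x ∈ Λ x) →
      (∀ (x₀ : M) (γ : M → ℝ × ℝ), ContMDiffAt 𝓘(ℝ, E) 𝓘(ℝ, ℝ × ℝ) ∞ γ x₀ →
        (∀ᶠ x in 𝓝 x₀, γ x ∈ Λ x) → ∀ v : TangentSpace 𝓘(ℝ, E) x₀,
        (mfderiv 𝓘(ℝ, E) 𝓘(ℝ, ℝ) (fun x => (γ x).1) x₀ v : ℝ) = - (γ x₀).2 * θ x₀ v) →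
      (∀ (x₀ : M) (γ γ' : M → ℝ × ℝ) (ρ : ℝ), Sel Λ γ x₀ → Sel Λ γ' x₀ →
        (∀ᶠ x in 𝓝 x₀, (γ x).2 = ρ * (γ' x).2) →
        ∀ᶠ x in 𝓝 x₀, (γ x).1 - ρ * (γ' x).1 = (γ x₀).1 - ρ * (γ' x₀).1) ∧
      (∀ (x₀ : M) (γ : M → ℝ × ℝ), Sel Λ γ x₀ → (γ x₀).2 ≠ 0 → (γ x₀).1 ≠ 0 →
        ¬ ∀ᶠ x in 𝓝 x₀, |(γ x₀).1| ≤ |(γ x).1|)

end Pool.Agent.N287.WF
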