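import Mathlib
import Pool.Agent.N287.WF.Stm

/-! Closed Reeb orbits when the Reeb field is tangent to a fibration by closed surfaces: assembly. -/

open scoped Topology ContDiff Manifold
open Set Filter Bundle Pool.Agent.Helper186 Pool.Agent.H826R2

noncomputable section

namespace Pool.Agent.N287.WF

universe u v w

set_option linter.unusedSectionVars false

variable {E : Type u} [NormedAddCommGroup E] [NormedSpace ℝ E] [FiniteDimensional ℝ E]
  {M : Type v} [TopologicalSpace M] [ChartedSpace E M] [IsManifold 𝓘(ℝ, E) ∞ M]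
  {W : Type w} [NormedAddCommGroup W] [InnerProductSpace ℝ W] [FiniteDimensional ℝ W]

/-- the stabiliser of a point -/
def stab (φ ψ : M → ℝ → M) (h0 : ∀ x, act φ ψ 0 x = x)
    (hadd : ∀ γ γ' x, act φ ψ (γ + γ') x = act φ ψ γ (act φ ψ γ' x)) (x : M) :
    AddSubgroup (ℝ × ℝ) where
  carrier := {γ | act φ ψ γ x = x}
  zero_mem' := h0 x
  add_mem' := by
    intro γ γ' h h'
    show act φ ψ (γ + γ') x = x
    rw [hadd, show act φ ψ γ' x = x from h', show act φ ψ γ x = x from h]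
  neg_mem' := by
    intro γ h
    show act φ ψ (-γ) x = x
    have h1 : act φ ψ (-γ + γ) x = x := by rw [neg_add_cancel]; exact h0 x
    rw [hadd, show act φ ψ γ x = x from h] at h1
    exact h1

lemma mem_stab {φ ψ : M → ℝ → M} {h0 : ∀ x, act φ ψ 0 x = x}
    {hadd : ∀ γ γ' x, act φ ψ (γ + γ') x = act φ ψ γ (act φ ψ γ' x)} {x : M} {γ : ℝ × ℝ} :
    γ ∈ stab φ ψ h0 hadd x ↔ act φ ψ γ x = x := Iff.rfl

theorem exists_periodic_aux [T2Space M] [CompactSpace M] [Nonempty M]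
    (hA : AbsStm.{v}) (hN : NrmStm.{u, v, w}) (hI : InvStm.{u, v, w}) (hF : FlowStm.{u, v, w})
    (hAc : ActStm.{u, v, w}) (hL : LocStm.{u, v, w}) (hS : SelStm.{u, v, w})
    (hFo : FormStm.{u, v, w}) (hD : DerStm.{u, v, w}) (hSm : SmallStm.{u, v, w})
    (hP : SelPropStm.{u, v})
    {β : (x : M) → TangentSpace 𝓘(ℝ, E) x →L[ℝ] ℝ} {R : (x : M) → TangentSpace 𝓘(ℝ, E) x}
    {f : M → W} {Z : (x : M) → TangentSpace 𝓘(ℝ, E) x} (h : Fib β R f Z) :
    ∃ (Y : (x : M) → TangentSpace 𝓘(ℝ, E) x) (φ ψ : M → ℝ → M), Fl2 R Y φ ψ ∧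
      (∀ x, act φ ψ 0 x = x) ∧
      (∀ γ γ' x, act φ ψ (γ + γ') x = act φ ψ γ (act φ ψ γ' x)) ∧
      (∀ γ x, f (act φ ψ γ x) = f x) ∧
      (∃ ε > 0, ∀ (x : M) (γ : ℝ × ℝ), act φ ψ γ x = x → ‖γ‖ < ε → γ = 0) ∧
      ∃ (x : M) (t : ℝ), 0 < t ∧ φ x t = x := by
  obtain ⟨Y, a, hY⟩ := hN E M W β R f Z h
  have hInv := hI E M W β R f Y a hY
  obtain ⟨φ, ψ, hfl⟩ := hF E M W β R f Y a hY (fun φ h0 h1 x t => (hInv φ h0 h1 x t).1)
  obtain ⟨hsm, h0, hadd, hf⟩ := hAc E M W β R f Y a hY φ ψ hfl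
  have hloc := hL E M W β R f Y a hY φ ψ hfl hsm h0 hadd hf
  obtain ⟨hsel, hdisc⟩ := hS E M W f φ ψ hsm h0 hadd hf hloc
  have hφ : ∀ x t, act φ ψ (t, 0) x = φ x t := fun x t => by
    show φ (ψ x 0) t = φ x t
    rw [hfl.ψ0]
  refine ⟨Y, φ, ψ, hfl, h0, hadd, hf, hdisc ‹_›, ?_⟩
  by_contra hno
  have hper : ∀ x (t : ℝ), act φ ψ (t, 0) x = x → t = 0 := by
    intro x t ht
    by_contra hne
    rcases lt_or_gt_of_ne hne with h1 | h1
    · refine hno ⟨x, -t, by linarith, ?_⟩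
      rw [← hφ]
      have h2 : act φ ψ ((-t, 0) + (t, 0)) x = x := by
        rw [show (((-t, 0) : ℝ × ℝ) + (t, 0)) = 0 by ext <;> simp]
        exact h0 x
      rw [hadd, ht] at h2
      exact h2
    · exact hno ⟨x, t, h1, by rw [← hφ]; exact ht⟩
  obtain ⟨hsmall, hconst⟩ := hSm E M W f φ ψ hY.smoothf.continuous hsm.continuous h0 hadd hf hloc
    hper
  have haφ : ∀ x t, a (act φ ψ (t, 0) x) = a x := fun x t => by
    rw [hφ]
    exact (hInv φ hfl.φ0 hfl.φint x t).2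
  have haψ : ∀ x s, a (ψ x s) = a x := fun x s => by
    have h1 := hconst W a hY.conta haφ (0, s) x
    have h2 : act φ ψ (0, s) x = ψ x s := by
      show φ (ψ x s) 0 = ψ x s
      rw [hfl.φ0]
    rw [h2] at h1
    exact h1
  have hform := hFo E M W β R f Y a hY φ ψ hfl haψ
  have hder := hD E M W β R f Y a hY φ ψ hfl hsm hform
  set Λ : M → AddSubgroup (ℝ × ℝ) := stab φ ψ h0 hadd with hΛ
  let θ : (x : M) → TangentSpace 𝓘(ℝ, E) x →L[ℝ] ℝ := fun x =>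
    (innerSL ℝ (a x)).comp (show TangentSpace 𝓘(ℝ, E) x →L[ℝ] W from DW f x)
  have hθ : ∀ x, θ x ≠ 0 := by
    intro x hx
    obtain ⟨u, hu⟩ := hY.mem x
    have h1 : θ x u = 0 := by rw [hx]; rfl
    have h2 : θ x u = inner ℝ (a x) (DW f x u) := rfl
    rw [h2, hu, real_inner_self_eq_norm_sq, hY.unit] at h1
    norm_num at h1
  obtain ⟨ε, hε, hε'⟩ := hdisc ‹_›
  have hdisc' : ∃ ε > 0, ∀ x, ∀ γ ∈ Λ x, ‖γ‖ < ε → γ = 0 :=
    ⟨ε, hε, fun x γ hγ hn => hε' x γ hγ hn⟩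
  obtain ⟨hc1, hc2⟩ := hP E M θ Λ hθ hdisc'
    (fun x₀ γ₀ hγ₀ => hsel x₀ γ₀ hγ₀)
    (fun x₀ γ hγ hγ' v => hder x₀ γ hγ hγ' v)
  have : LocallyConnectedSpace M := ChartedSpace.locallyConnectedSpace E M
  refine hA M Λ ⟨?_, hdisc', ?_, ?_, ?_⟩ hc1 hc2
  · have h1 : Continuous (fun p : M × (ℝ × ℝ) => act φ ψ p.2 p.1) :=
      hsm.continuous.comp (continuous_snd.prodMk continuous_fst)
    exact isClosed_eq h1 continuous_fst
  · intro x₀ γ₀ hγ₀
    obtain ⟨γ, h1, h2⟩ := hsel x₀ γ₀ hγ₀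
    refine ⟨γ, h1, ?_⟩
    filter_upwards [h2] with x hx
    exact ⟨hx.1.continuousAt, hx.2⟩
  · intro x t ht
    exact hper x t ht
  · intro x δ hδ
    obtain ⟨γ, h1, h2, h3⟩ := hsmall x δ hδ
    exact ⟨γ, h1, h2, h3⟩

lemma X_one {β : (x : M) → TangentSpace 𝓘(ℝ, E) x →L[ℝ] ℝ}
    {R : (x : M) → TangentSpace 𝓘(ℝ, E) x} (c : Wein.CD β R) (x : M) :
    c.X (fun _ => 1) x = R x := by
  refine (c.X_unique fun v => ?_).symm
  rw [Wein.HB_apply, c.reeb.unit, c.reeb.kernel, one_mul, add_zero]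
  have e2 : dForm 𝓘(ℝ, E) (fun _ : M => (1:ℝ)) x v = 0 := by
    show (mfderiv 𝓘(ℝ, E) 𝓘(ℝ, ℝ) (fun _ : M => (1:ℝ)) x) v = 0
    rw [mfderiv_const]
    rfl
  rw [e2, sub_zero]

lemma smooth_R {β : (x : M) → TangentSpace 𝓘(ℝ, E) x →L[ℝ] ℝ}
    {R : (x : M) → TangentSpace 𝓘(ℝ, E) x} (c : Wein.CD β R) :
    ContMDiff 𝓘(ℝ, E) 𝓘(ℝ, E).tangent ∞ (fun x => (⟨x, R x⟩ : TangentBundle 𝓘(ℝ, E) M)) := by
  have h2 := c.smooth_X (f := fun _ => 1) contMDiff_const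
  have e3 : (fun x => (⟨x, R x⟩ : TangentBundle 𝓘(ℝ, E) M)) =
      fun x => ⟨x, c.X (fun _ => 1) x⟩ := by
    ext1 x
    rw [X_one c]
  rw [e3]
  exact h2

/-- the second coordinates of the elements of a uniformly discrete subgroup are countable -/
lemma countable_snd (Λ : AddSubgroup (ℝ × ℝ)) {ε : ℝ} (hε : 0 < ε)
    (h : ∀ γ ∈ Λ, ‖γ‖ < ε → γ = 0) :
    ((Λ.map (AddMonoidHom.snd ℝ ℝ) : AddSubgroup ℝ) : Set ℝ).Countable := by
  have h1 : (Λ : Set (ℝ × ℝ)).Countable := by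
    have h2 : DiscreteTopology (Λ : Set (ℝ × ℝ)) := by
      refine DiscreteTopology.of_forall_le_dist hε ?_
      intro x y hxy
      by_contra h3
      push Not at h3
      apply hxy
      have h4 : (x : ℝ × ℝ) - y = 0 := by
        refine h _ (Λ.sub_mem x.2 y.2) ?_
        rw [← dist_eq_norm]
        exact h3
      exact Subtype.ext (sub_eq_zero.1 h4)
    exact Set.countable_coe_iff.1 (TopologicalSpace.separableSpace_iff_countable.1 inferInstance)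
  rw [AddSubgroup.coe_map]
  exact h1.image _

/-- there is a sequence of reals pairwise incongruent modulo a countable subgroup -/
lemma exists_seq (S : AddSubgroup ℝ) (hS : (S : Set ℝ).Countable) :
    ∃ s : ℕ → ℝ, ∀ m n, m ≠ n → s m - s n ∉ S := by
  have h1 : Infinite (ℝ ⧸ S) := by
    by_contra h
    rw [not_infinite_iff_finite] at h
    have h2 : (Set.univ : Set ℝ).Countable := by
      have h3 : (Set.univ : Set ℝ) =
          ⋃ q : ℝ ⧸ S, (fun x : ℝ => q.out + x) '' (S : Set ℝ) := by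
        symm
        rw [Set.eq_univ_iff_forall]
        intro x
        rw [Set.mem_iUnion]
        refine ⟨(x : ℝ ⧸ S), x - Quotient.out (x : ℝ ⧸ S), ?_, by ring⟩
        have h4 : ((Quotient.out (x : ℝ ⧸ S) : ℝ) : ℝ ⧸ S) = (x : ℝ ⧸ S) :=
          QuotientAddGroup.out_eq' _
        have h5 := QuotientAddGroup.eq.1 h4
        rwa [neg_add_eq_sub] at h5
      rw [h3]
      exact Set.countable_iUnion fun q => hS.image _
    exact Set.not_countable_univ h2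
  refine ⟨fun n => Quotient.out (Infinite.natEmbedding (ℝ ⧸ S) n), ?_⟩
  intro m n hmn hmem
  apply hmn
  apply (Infinite.natEmbedding (ℝ ⧸ S)).injective
  have h2 : ((Quotient.out (Infinite.natEmbedding (ℝ ⧸ S) n) : ℝ) : ℝ ⧸ S) =
      ((Quotient.out (Infinite.natEmbedding (ℝ ⧸ S) m) : ℝ) : ℝ ⧸ S) := by
    rw [QuotientAddGroup.eq, neg_add_eq_sub]
    exact hmem
  rw [QuotientAddGroup.out_eq', QuotientAddGroup.out_eq'] at h2
  exact h2.symm

/-- the result in terms of the elementary definitions, from the parts -/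
theorem exists_periodic_of [T2Space M] [CompactSpace M] [Nonempty M]
    (hA : AbsStm.{v}) (hN : NrmStm.{u, v, w}) (hI : InvStm.{u, v, w}) (hF : FlowStm.{u, v, w})
    (hAc : ActStm.{u, v, w}) (hL : LocStm.{u, v, w}) (hS : SelStm.{u, v, w})
    (hFo : FormStm.{u, v, w}) (hD : DerStm.{u, v, w}) (hSm : SmallStm.{u, v, w})
    (hP : SelPropStm.{u, v})
    (α : M → WStmt.Cov E) (hα : WStmt.IsContact α) (R : M → E) (hR : WStmt.IsReeb α R)
    (f : M → W) (hf : ContMDiff 𝓘(ℝ, E) 𝓘(ℝ, W) ∞ f)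
    (Z : M → E) (hZ : ContMDiff 𝓘(ℝ, E) 𝓘(ℝ, E).tangent ∞
      (fun x => (⟨x, Z x⟩ : TangentBundle 𝓘(ℝ, E) M)))
    (hker : ∀ (x : M) (u : E), WStmt.D (E := E) (E' := W) f x u = 0 ↔
      ∃ p q : ℝ, u = p • R x + q • Z x)
    (hind : ∀ (x : M) (p q : ℝ), p • R x + q • Z x = 0 → p = 0 ∧ q = 0) :
    ∃ (c : ℕ → ℝ → M) (T : ℝ) (w : W), (∀ n, WStmt.IsPeriodicOrbit R (c n) T) ∧
      (∀ n t, f (c n t) = w) ∧ ∀ m n, m ≠ n → Disjoint (range (c m)) (range (c n)) := by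
  have h : Fib (WStmt.toForm α) (fun x => (R x : TangentSpace 𝓘(ℝ, E) x)) f
      (fun x => (Z x : TangentSpace 𝓘(ℝ, E) x)) :=
    ⟨⟨hα.toWein, hR.toWein⟩, hf, hZ, fun x u => hker x u, fun x p q hpq => hind x p q hpq⟩
  obtain ⟨Y, φ, ψ, hfl, h0, hadd, hfa, ⟨ε, hε, hdisc⟩, x, t, ht, hx⟩ :=
    exists_periodic_aux hA hN hI hF hAc hL hS hFo hD hSm hP h
  have : IsManifold 𝓘(ℝ, E) 1 M := IsManifold.of_le (n := ∞) (by simp)
  have hRs := smooth_R h.cd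
  have hS := countable_snd (stab φ ψ h0 hadd x) hε (fun γ hγ hn => hdisc x γ hγ hn)
  obtain ⟨s, hs⟩ := exists_seq _ hS
  refine ⟨fun n => φ (ψ x (s n)), t, f x, fun n => ⟨ht, hfl.φint _, fun r => ?_⟩,
    fun n r => hfa (r, s n) x, ?_⟩
  · show φ (ψ x (s n)) (r + t) = φ (ψ x (s n)) r
    rw [add_comm, flow_add hRs hfl.φ0 hfl.φint, hfl.comm, hx]
  · intro m n hmn
    rw [Set.disjoint_left]
    rintro _ ⟨p, rfl⟩ ⟨q, hq⟩
    apply hs m n hmn
    refine ⟨(p - q, s m - s n), ?_, rfl⟩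
    show act φ ψ (p - q, s m - s n) x = x
    have e1 : act φ ψ (q, s n) x = act φ ψ (p, s m) x := hq
    have e2 : ((p - q, s m - s n) : ℝ × ℝ) = -(q, s n) + (p, s m) := by
      ext <;> simp <;> ring
    rw [e2, hadd, ← e1, ← hadd, neg_add_cancel]
    exact h0 x

end Pool.Agent.N287.WF
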