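import Mathlib
import Pool.Agent.N287.WF.Asm
import Pool.Agent.N596.WF.A1
import Pool.Agent.N603.WF.A2
import Pool.Agent.N170.WF.A3
import Pool.Agent.N284.WF.M1a
import Pool.Agent.N426.WF.M1b
import Pool.Agent.N490.WF.Flow
import Pool.Agent.N488.WF.Loc
import Pool.Agent.N700.WF.M4
import Pool.Agent.N674.WF.M5a
import Pool.Agent.N75.WF.Der
import Pool.Agent.N79.WF.M6
import Pool.Agent.N427.WF.M7a

/-! Closed Reeb orbits when the Reeb field is tangent to a fibration by closed surfaces. -/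

open scoped Topology ContDiff Manifold
open Set Filter Bundle Pool.Agent.H826R2

noncomputable section

namespace Pool.Agent.N287.WF

universe u v w

variable {E : Type u} [NormedAddCommGroup E] [NormedSpace ℝ E] [FiniteDimensional ℝ E]
  {M : Type v} [TopologicalSpace M] [ChartedSpace E M] [IsManifold 𝓘(ℝ, E) ∞ M]
  {W : Type w} [NormedAddCommGroup W] [InnerProductSpace ℝ W] [FiniteDimensional ℝ W]

theorem exists_periodic [T2Space M] [CompactSpace M] [Nonempty M]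
    (α : M → WStmt.Cov E) (hα : WStmt.IsContact α) (R : M → E) (hR : WStmt.IsReeb α R)
    (f : M → W) (hf : ContMDiff 𝓘(ℝ, E) 𝓘(ℝ, W) ∞ f)
    (Z : M → E) (hZ : ContMDiff 𝓘(ℝ, E) 𝓘(ℝ, E).tangent ∞
      (fun x => (⟨x, Z x⟩ : TangentBundle 𝓘(ℝ, E) M)))
    (hker : ∀ (x : M) (u : E), WStmt.D (E := E) (E' := W) f x u = 0 ↔
      ∃ p q : ℝ, u = p • R x + q • Z x)
    (hind : ∀ (x : M) (p q : ℝ), p • R x + q • Z x = 0 → p = 0 ∧ q = 0) :
    ∃ (c : ℕ → ℝ → M) (T : ℝ) (w : W), (∀ n, WStmt.IsPeriodicOrbit R (c n) T) ∧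
      (∀ n t, f (c n t) = w) ∧ ∀ m n, m ≠ n → Disjoint (range (c m)) (range (c n)) :=
  exists_periodic_of (Pool.Agent.N170.WF.abs_false Pool.Agent.N596.WF.basis
      Pool.Agent.N603.WF.localBasis)
    Pool.Agent.N284.WF.nrm Pool.Agent.N426.WF.inv Pool.Agent.N490.WF.flow
    Pool.Agent.N490.WF.actProp Pool.Agent.N488.WF.loc Pool.Agent.N700.WF.sel
    Pool.Agent.N674.WF.form Pool.Agent.N75.WF.der Pool.Agent.N79.WF.small
    Pool.Agent.N427.WF.selProp α hα R hR f hf Z hZ hker hind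

end Pool.Agent.N287.WF
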